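import Pool.Agent.U88.GD.Main

/-!
# Subsets of finite positive Hausdorff measure: exactly which gauges fail (helper88)

Let `f` be a gauge function. In ZFC the statement
`(∗)_f`: every `A ⊆ ℝ` with `H^f(A) > 0` has a subset `A₀` with `0 < H^f(A₀) < ∞`
holds if and only if `f(t)/t` does not tend to infinity for `t → 0+`. If `f(t)/t → ∞` there is even
a universally null set `A` with `H^f(A) = ∞` all of whose subsets have `H^f` measure `0` or `∞`.
In particular `(∗)` is refuted by ZFC.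

Proof of the negative half: let `E ⊆ 2^ω` be nonnull of size `non(N)` and let `Z` be a universally
null set of the same size (Grzegorek). Write the code of `z_y` into a very sparse set of places of the
binary expansion of `y ∈ E` (and zeros into another one). The resulting points form a set `A` which
a Borel function maps injectively into `Z`, so that `A` is universally null; as only few places have
been used, the mass of `E` gives `H^f(A) > 0`. A subset of `A` of finite measure `H^f` has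
measure zero, since `H^f` restricted to a Borel hull is an atomless finite measure.
-/

set_option autoImplicit false

open MeasureTheory Set Filter Topology
open scoped ENNReal NNReal

namespace Pool.Agent.Results.MP_b87f19_lc.GaugeDichotomy

open Pool.Agent.U88.GD

theorem sqrt_gauge : IsGauge NNReal.sqrt where
  mono := NNReal.sqrt.monotone
  rightCont := fun _ => NNReal.continuous_sqrt.continuousWithinAt
  zero := NNReal.sqrt_zero
  pos := fun _ h => NNReal.sqrt_pos.2 h

theorem sqrt_tendsto :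
    Tendsto (fun t : ℝ≥0 => NNReal.sqrt t / t) (𝓝[>] 0) atTop := by
  rw [tendsto_atTop]
  intro b
  have h1 : ∀ᶠ t in 𝓝[>] (0 : ℝ≥0), t ∈ Ioo 0 ((b + 1)⁻¹ ^ 2) :=
    Ioo_mem_nhdsGT (by positivity)
  filter_upwards [h1] with t ht
  have h2 : NNReal.sqrt t < (b + 1)⁻¹ := by
    rw [← NNReal.sqrt_sq (b + 1)⁻¹]
    exact NNReal.sqrt_lt_sqrt.2 ht.2
  have hpos : 0 < NNReal.sqrt t := NNReal.sqrt_pos.2 ht.1
  rw [le_div_iff₀ ht.1]
  calc b * t = b * (NNReal.sqrt t * NNReal.sqrt t) := by rw [NNReal.mul_self_sqrt]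
    _ = (b * NNReal.sqrt t) * NNReal.sqrt t := by ring
    _ ≤ 1 * NNReal.sqrt t := by
        refine mul_le_mul_left ?_ _
        calc b * NNReal.sqrt t ≤ (b + 1) * (b + 1)⁻¹ :=
              mul_le_mul' (le_add_of_nonneg_right zero_le_one) h2.le
          _ = 1 := mul_inv_cancel₀ (by positivity)
    _ = NNReal.sqrt t := one_mul _

/-- For every gauge `f`, all sets of positive `H^f` measure have subsets of finite positive measure
if and only if `f(t)/t` does not tend to infinity; when it does, there is a universally null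
witness of infinite measure. In particular `(∗)` fails. -/
theorem result :
    (∀ f : ℝ≥0 → ℝ≥0, IsGauge f →
      ((∀ A : Set ℝ, 0 < H f A → ∃ A₀ ⊆ A, 0 < H f A₀ ∧ H f A₀ < ∞) ↔
        ¬ Tendsto (fun t : ℝ≥0 => f t / t) (𝓝[>] 0) atTop) ∧
      (Tendsto (fun t : ℝ≥0 => f t / t) (𝓝[>] 0) atTop →
        ∃ A : Set ℝ, UnivNull A ∧ H f A = ∞ ∧ ∀ A₀ ⊆ A, H f A₀ = 0 ∨ H f A₀ = ∞)) ∧
    ¬ (∀ f : ℝ≥0 → ℝ≥0, IsGauge f → ∀ A : Set ℝ, 0 < H f A →
        ∃ A₀ ⊆ A, 0 < H f A₀ ∧ H f A₀ < ∞) := by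
  have hneg : ∀ f : ℝ≥0 → ℝ≥0, IsGauge f →
      Tendsto (fun t : ℝ≥0 => f t / t) (𝓝[>] 0) atTop →
        ∃ A : Set ℝ, UnivNull A ∧ H f A = ∞ ∧ ∀ A₀ ⊆ A, H f A₀ = 0 ∨ H f A₀ = ∞ := by
    intro f hf ht
    obtain ⟨A, hA, hinf⟩ := negative hf ht
    refine ⟨A, hA, hinf, fun A₀ hA₀ => zero_or_top hf.zero ?_⟩
    intro μ h1 h2
    exact measure_mono_null hA₀ (hA μ h1 h2)
  have hfail : ∀ f : ℝ≥0 → ℝ≥0, IsGauge f →
      Tendsto (fun t : ℝ≥0 => f t / t) (𝓝[>] 0) atTop →
      ¬ (∀ A : Set ℝ, 0 < H f A → ∃ A₀ ⊆ A, 0 < H f A₀ ∧ H f A₀ < ∞) := by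
    intro f hf ht hall
    obtain ⟨A, -, hinf, h01⟩ := hneg f hf ht
    obtain ⟨A₀, hA₀, hp, hfin⟩ := hall A (by rw [hinf]; exact ENNReal.zero_lt_top)
    rcases h01 A₀ hA₀ with h | h
    · exact hp.ne' h
    · exact hfin.ne h
  refine ⟨fun f hf => ⟨⟨fun h ht => hfail f hf ht h, fun hnt A hA => positive hf hnt hA⟩,
    hneg f hf⟩, fun h => hfail _ sqrt_gauge sqrt_tendsto (h _ sqrt_gauge)⟩

end Pool.Agent.Results.MP_b87f19_lc.GaugeDichotomy
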